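import Pool.Agent.Helper46.Removal.Upper3
import Pool.Agent.Helper46.Removal.Lower

/-!
The linear removal threshold is not monotone: deleting one edge can increase it.
-/

namespace Pool.Agent.Results.MP_155693_co.LinearNotMonotone

open Pool.H46.Removal

/-- There are a graph `H` on 29 vertices and an edge `e` of `H` such that the linear removal
threshold of `H` is at most `3 / 5` and that of `H` without `e` is at least `35 / 58`. -/
theorem result : ∃ (H : SimpleGraph (Fin 29)) (e : Sym2 (Fin 29)), e ∈ H.edgeSet ∧
    linThreshold H ≤ 3 / 5 ∧ 35 / 58 ≤ linThreshold (H.deleteEdges {e}) := by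
  refine ⟨HH, s(0, 1), ?_, ?_, le_linThreshold⟩
  · show hadj 0 1 = true
    decide +kernel
  · refine linThreshold_le HH fun γ hγ hγ1 => ?_
    refine linearAt_of_k4 HH (fun w => ⟨hcol w, hcol_lt w⟩) 2 6 0 1 4 ?_ ?_ ?_ ?_ ?_ ?_
      (by decide +kernel) (by decide +kernel) (by decide +kernel) (by decide +kernel)
      (by decide +kernel) ?_ γ hγ hγ1
    · show hadj 2 6 = true
      decide +kernel
    · show hadj 2 0 = true
      decide +kernel
    · show hadj 2 1 = true
      decide +kernel
    · show hadj 6 0 = true
      decide +kernel
    · show hadj 6 1 = true
      decide +kernel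
    · show hadj 0 1 = true
      decide +kernel
    · intro a b hab
      rcases hcol_proper a b hab with h | h | h
      · left
        intro h2
        exact h (congrArg Fin.val h2)
      · right; left; exact h
      · right; right; exact h

end Pool.Agent.Results.MP_155693_co.LinearNotMonotone
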